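import Pool.Agent.Helper97.Nag.Goals

/-!
# Project NAG (MP_d3128a_ag): packet CUVK (the germs lie on the curve)
-/

set_option autoImplicit false

namespace Pool.Agent.Helper78.Nag.CUVK

open Pool.Agent.Helper97.Nag
open Pool.Agent.Helper97.Tate (OO KK SS cf IsTh qe Th iO ser evx evK th Van Fm tst nP Idx Indep IsCub)
open Pool.Agent.Helper97

noncomputable section

variable {F : Type} [Field F]

/-- the value of the theta function at `x`, a power series in `q` -/
def av (k : ℕ) (x : Fˣ) (r : ℤ) : OO F := PowerSeries.coeff 0 (evx x (Th k r 1))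

theorem ccK (h2 : Tate.S_EVC) (k : ℕ) (x : Fˣ) (r : Fin 3) :
    PowerSeries.constantCoeff (phk k x r) = algebraMap (OO F) (KK F) (av k x ((r : ℕ) : ℤ)) := by
  unfold phk av
  rw [← PowerSeries.coeff_zero_eq_constantCoeff_apply]
  exact (h2 F x _ 0 0).2.1

theorem av_one (h1 : Tate.S_THC) (h2 : Tate.S_EVC) (k : ℕ) (hk : 3 ≤ k) (x : Fˣ) :
    PowerSeries.constantCoeff (av k x 1) = (x : F) := by
  have e1 := (h2 F x (Th k 1 1) 0 0).1
  have e2 := (h1 F k 1 1 one_ne_zero (by norm_num) (by omega)).2.2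
  rw [if_neg (by norm_num)] at e2
  unfold av
  rw [← PowerSeries.coeff_zero_eq_constantCoeff_apply, e1,
    PowerSeries.coeff_zero_eq_constantCoeff_apply, e2]
  show (Finsupp.single (1 : ℤ) (1 : F)).sum _ = _
  rw [Finsupp.sum_single_index]
  · simp
  · simp

theorem av_two (h1 : Tate.S_THC) (h2 : Tate.S_EVC) (k : ℕ) (hk : 3 ≤ k) (x : Fˣ) :
    PowerSeries.constantCoeff (av k x 2) = (x : F) ^ 2 := by
  have e1 := (h2 F x (Th k 2 1) 0 0).1
  have e2 := (h1 F k 2 1 one_ne_zero (by norm_num) (by omega)).2.2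
  rw [if_neg (by norm_num)] at e2
  unfold av
  rw [← PowerSeries.coeff_zero_eq_constantCoeff_apply, e1,
    PowerSeries.coeff_zero_eq_constantCoeff_apply, e2]
  show (Finsupp.single (2 : ℤ) (1 : F)).sum _ = _
  rw [Finsupp.sum_single_index]
  · have : x ^ (2 : ℤ) = x ^ (2 : ℕ) := by
      rw [← zpow_natCast]
      rfl
    rw [this]
    simp
  · simp

theorem alg_ne {u : OO F} (h : PowerSeries.constantCoeff u ≠ 0) : algebraMap (OO F) (KK F) u ≠ 0 := by
  intro h0
  apply h
  have : u = 0 := (IsFractionRing.injective (OO F) (KK F)) (by rw [h0, map_zero])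
  rw [this, map_zero]

/-- restriction of the image of a polynomial to the germ -/
theorem aev (h2 : Tate.S_EVC) (k : ℕ) (x : Fˣ) (G : MvPolynomial (Fin 3) (OO F)) :
    MvPolynomial.aeval (phk k x) (crvK G) =
      evK x (MvPolynomial.eval₂ iO (fun r : Fin 3 => Th k ((r : ℕ) : ℤ) (1 : F)) G) := by
  unfold crvK
  rw [MvPolynomial.aeval_def, MvPolynomial.eval₂_map, MvPolynomial.hom_eval₂]
  have : (algebraMap (KK F) (PowerSeries (KK F))).comp (algebraMap (OO F) (KK F)) =
      (evK x).comp iO := by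
    ext1 a
    rw [RingHom.comp_apply, RingHom.comp_apply, (h2 F x 0 0 0).2.2]
    rfl
  rw [this]
  rfl

/-- the constant coefficient -/
theorem cev (h2 : Tate.S_EVC) (k : ℕ) (x : Fˣ) (G : MvPolynomial (Fin 3) (OO F)) :
    PowerSeries.constantCoeff (MvPolynomial.aeval (phk k x) (crvK G)) =
      algebraMap (OO F) (KK F) (MvPolynomial.eval (fun r : Fin 3 => av k x ((r : ℕ) : ℤ)) G) := by
  unfold crvK
  rw [MvPolynomial.aeval_def, MvPolynomial.eval₂_map, MvPolynomial.hom_eval₂,
    MvPolynomial.eval, MvPolynomial.map_eval₂Hom]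
  rw [MvPolynomial.coe_eval₂Hom]
  have e1 : (PowerSeries.constantCoeff (R := KK F)).comp
      ((algebraMap (KK F) (PowerSeries (KK F))).comp (algebraMap (OO F) (KK F))) =
      (algebraMap (OO F) (KK F)).comp (RingHom.id (OO F)) := by
    ext1 a
    simp only [RingHom.comp_apply, RingHom.id_apply]
    exact PowerSeries.constantCoeff_C _
  rw [e1]
  congr 1
  funext r
  exact ccK h2 k x r

/-- **CUVK** -/
theorem t (h1 : Tate.S_THC) (h2 : Tate.S_EVC) : S_CUVK := by
  intro F _ k g hk hg x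
  refine ⟨by rw [aev h2, hg.2.2, map_zero], ?_⟩
  have e1 : MvPolynomial.pderiv 0 (crvK g) = crvK (MvPolynomial.pderiv 0 g) := by
    unfold crvK
    exact MvPolynomial.pderiv_map
  rw [e1, cev h2]
  apply alg_ne
  have e2 : (PowerSeries.constantCoeff (R := F))
      (MvPolynomial.eval (fun r : Fin 3 => av k x ((r : ℕ) : ℤ)) (MvPolynomial.pderiv 0 g)) =
      MvPolynomial.eval (fun r : Fin 3 => PowerSeries.constantCoeff (av k x ((r : ℕ) : ℤ)))
        (MvPolynomial.map (PowerSeries.constantCoeff (R := F)) (MvPolynomial.pderiv 0 g)) := by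
    rw [MvPolynomial.eval_map, MvPolynomial.eval, MvPolynomial.map_eval₂Hom,
      MvPolynomial.coe_eval₂Hom, RingHom.comp_id]
  rw [e2, ← MvPolynomial.pderiv_map, hg.2.1]
  have e3 : MvPolynomial.pderiv 0 (g0 F k) = MvPolynomial.X 1 ^ (k - 2) * MvPolynomial.X 2 := by
    unfold g0
    simp only [map_sub, Derivation.leibniz, Derivation.leibniz_pow,
      MvPolynomial.pderiv_X_self, MvPolynomial.pderiv_X_of_ne (show (1 : Fin 3) ≠ 0 by decide),
      MvPolynomial.pderiv_X_of_ne (show (2 : Fin 3) ≠ 0 by decide), smul_eq_mul, mul_zero,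
      smul_zero, add_zero, zero_add, sub_zero, mul_one]
    ring
  rw [e3, map_mul, map_pow, MvPolynomial.eval_X, MvPolynomial.eval_X]
  show PowerSeries.constantCoeff (av k x 1) ^ (k - 2) * PowerSeries.constantCoeff (av k x 2) ≠ 0
  rw [av_one h1 h2 k hk, av_two h1 h2 k hk]
  exact mul_ne_zero (pow_ne_zero _ x.ne_zero) (pow_ne_zero _ x.ne_zero)

end

end Pool.Agent.Helper78.Nag.CUVK
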