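import Pool.Agent.Helper97.Nag.Goals

/-!
# Project NAG (MP_d3128a_ag): packet COLC (points on parallel lines, counting version)
-/

set_option autoImplicit false

namespace Pool.Agent.Helper78.Nag.COLC

open Pool.Agent.Helper97.Nag
open Pool.Agent.Helper97.Tate (Indep)
open Pool.Agent.Helper97

/-- **COLC** -/
theorem t (h1 : Tate.S_COL) : S_COLC := by
  classical
  intro M S hS
  obtain ⟨c, hc⟩ : ∃ c : ℤ → ℕ, c = fun X => (S.filter fun q => q.1 - q.2 = X).card := ⟨_, rfl⟩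
  obtain ⟨I, hI⟩ : ∃ I : Finset ℤ, I = S.image fun q => q.1 - q.2 := ⟨_, rfl⟩
  obtain ⟨st, hst⟩ : ∃ st : ℤ → Finset ℤ,
      st = fun X => I.filter fun X' => c X < c X' ∨ (c X' = c X ∧ X' < X) := ⟨_, rfl⟩
  have mem (X X' : ℤ) : X' ∈ st X ↔ X' ∈ I ∧ (c X < c X' ∨ (c X' = c X ∧ X' < X)) := by
    rw [hst, Finset.mem_filter]
  have hlns (s : ℕ) (X : ℤ) : X ∈ lns S s ↔ X ∈ I ∧ s ≤ c X := by
    unfold lns
    rw [Finset.mem_filter, hI, hc]
  -- the position is injective
  have key (X Y : ℤ) (hX : X ∈ I) (h : c Y < c X ∨ (c X = c Y ∧ X < Y)) :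
      (st X).card < (st Y).card := by
    apply Finset.card_lt_card
    rw [Finset.ssubset_iff_of_subset]
    · refine ⟨X, (mem Y X).2 ⟨hX, h⟩, fun h2 => ?_⟩
      have := ((mem X X).1 h2).2
      omega
    · intro Z hZ
      have h2 := (mem X Z).1 hZ
      exact (mem Y Z).2 ⟨h2.1, by omega⟩
  have inj (X Y : ℤ) (hX : X ∈ I) (hY : Y ∈ I) (h : (st X).card = (st Y).card) : X = Y := by
    by_contra hne
    have h2 : (c Y < c X ∨ (c X = c Y ∧ X < Y)) ∨ (c X < c Y ∨ (c Y = c X ∧ Y < X)) := by omega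
    rcases h2 with h3 | h3
    · exact (key X Y hX h3).ne h
    · exact (key Y X hY h3).ne h.symm
  have bd (X : ℤ) (hX : X ∈ I) : c X + (st X).card ≤ M := by
    have hc1 : 1 ≤ c X := by
      rw [hI, Finset.mem_image] at hX
      obtain ⟨q, hq, hqX⟩ := hX
      rw [hc]
      exact Finset.card_pos.2 ⟨q, Finset.mem_filter.2 ⟨hq, hqX⟩⟩
    have hX' : X ∈ lns S (c X) := (hlns _ _).2 ⟨hX, le_rfl⟩
    have h2 := hS (c X) hc1 ⟨X, hX'⟩
    have h3 : insert X (st X) ⊆ lns S (c X) := by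
      intro Z hZ
      rw [Finset.mem_insert] at hZ
      rcases hZ with rfl | hZ
      · exact hX'
      · have h4 := (mem X Z).1 hZ
        exact (hlns _ _).2 ⟨h4.1, by omega⟩
    have h4 : X ∉ st X := fun h5 => by
      have := ((mem X X).1 h5).2
      omega
    have h5 := Finset.card_le_card h3
    rw [Finset.card_insert_of_notMem h4] at h5
    omega
  have inI (p : ℤ × ℤ) (hp : p ∈ S) : p.1 - p.2 ∈ I := by
    rw [hI]
    exact Finset.mem_image_of_mem (fun q : ℤ × ℤ => q.1 - q.2) hp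
  refine h1 M S 1 (fun X => (st X).card) ?_ ?_
  · intro p hp p' hp' h
    simp only [one_mul] at h ⊢
    exact inj _ _ (inI p hp) (inI p' hp') h
  · intro p hp
    simp only [one_mul]
    have := bd _ (inI p hp)
    rw [hc] at this
    exact this

end Pool.Agent.Helper78.Nag.COLC
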