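import Pool.Agent.Helper97.Nag.Goals

/-!
# Project NAG (MP_d3128a_ag): packet LHYK (the structure of all the levels)
-/

set_option autoImplicit false

namespace Pool.Agent.Helper78.Nag.LHYK

open Pool.Agent.Helper97.Nag
open Pool.Agent.Helper97.Tate (OO KK SS cf IsTh qe Th iO ser evx evK th Van Fm tst nP Idx Indep IsCub)
open Pool.Agent.Helper97

noncomputable section

theorem wk_eq {F : Type} [Field F] (k : ℕ) {ι : Type} (w : ι → Fˣ) (m d j : ℕ) (hj : k * j ≤ d) :
    WK (fun i => ptk k (w i)) m d k j = SysK k w (d - k * j) (m - j) := by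
  unfold WK SysK Fm
  have h0 : (0 : ℤ) ≤ (d : ℤ) - k * j := by
    have : ((k * j : ℕ) : ℤ) ≤ d := by exact_mod_cast hj
    push_cast at this
    omega
  rw [if_pos h0]
  have e2 : ((d : ℤ) - k * j).toNat = d - k * j := by
    have : ((k * j : ℕ) : ℤ) = (k : ℤ) * j := by push_cast; ring
    omega
  rw [e2]

theorem hom0 {K : Type} [Field K] {z : MvPolynomial (Fin 3) K} (h : z.IsHomogeneous 0) :
    z = MvPolynomial.C (MvPolynomial.coeff 0 z) :=
  MvPolynomial.totalDegree_eq_zero_iff_eq_C.1 (Nat.le_zero.1 h.totalDegree_le)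

/-- **LHYK** -/
theorem t (h1 : S_LEVK) : S_LHYK := by
  intro F _ _ k g hk hg ι _ w hw hcard d m hkm b x j hj
  rcases Nat.lt_or_eq_of_le hj with hlt | heq
  · have hν : nu k d m j = kap k d m j := if_neg hlt.ne
    have hmax : k * max j m < d := by
      rcases max_choice j m with h | h <;> rw [h] <;> assumption
    have hk1 : 1 ≤ kap k d m j := by
      unfold kap
      exact Nat.mul_pos (by omega) (Nat.sub_pos_of_lt hmax)
    have hk2 : kap k d m j + Fintype.card ι * (m - j) = k * (d - k * j) := by
      rw [hcard]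
      unfold kap
      rcases le_total j m with h | h
      · rw [max_eq_right h]
        obtain ⟨v, rfl⟩ := Nat.exists_eq_add_of_le h
        obtain ⟨u, rfl⟩ := Nat.exists_eq_add_of_le hkm.le
        have e1 : k * (j + v) + u - k * (j + v) = u := by omega
        have e2 : k * (j + v) + u - k * j = k * v + u := by rw [mul_add]; omega
        have e3 : j + v - j = v := by omega
        rw [e1, e2, e3]
        ring
      · rw [max_eq_left h, Nat.sub_eq_zero_of_le h, mul_zero, add_zero]
    obtain ⟨a, ha1, ha2⟩ := h1 F k g hk hg ι w hw (d - k * j) (m - j) (kap k d m j) hk1 hk2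
    have hW := wk_eq k w m d j hj
    rw [hν]
    refine ⟨a ∘ₗ (LinearEquiv.ofEq _ _ hW).toLinearMap, ?_, ?_⟩
    · intro z hz
      exact ha1 (LinearEquiv.ofEq _ _ hW z) hz
    · intro z i
      have h2 := ha2 (x i) (LinearEquiv.ofEq _ _ hW z)
      have h3 : MvPolynomial.aeval (phk k (x i)) (z : MvPolynomial (Fin 3) (KK F)) =
        (∏ i', evK (x i) (th (w i'))) ^ (m - j) *
        ∑ r : Fin (kap k d m j), PowerSeries.C (a (LinearEquiv.ofEq _ _ hW z) r) *
          evK (x i) (Th (kap k d m j) ((r : ℕ) : ℤ) (∏ i', (-((w i' : Fˣ) : F)) ^ (m - j))) := h2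
      show (∏ i', evK (x i) (th (w i'))) ^ j *
          MvPolynomial.aeval (phk k (x i)) (z : MvPolynomial (Fin 3) (KK F)) =
        (∏ i', evK (x i) (th (w i'))) ^ m *
          ∑ r : Fin (kap k d m j), PowerSeries.C (a (LinearEquiv.ofEq _ _ hW z) r) *
            SER k d m w (x i) j (r : ℕ)
      have h4 : ∀ r : ℕ, SER k d m w (x i) j r = (∏ i', evK (x i) (th (w i'))) ^ (j - m) *
          evK (x i) (Th (kap k d m j) ((r : ℕ) : ℤ) (∏ i', (-((w i' : Fˣ) : F)) ^ (m - j))) := by
        intro r
        unfold SER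
        rw [if_neg hlt.ne]
      simp only [h4]
      have h5 : (∏ i', evK (x i) (th (w i'))) ^ j * (∏ i', evK (x i) (th (w i'))) ^ (m - j) =
          (∏ i', evK (x i) (th (w i'))) ^ m * (∏ i', evK (x i) (th (w i'))) ^ (j - m) := by
        rw [← pow_add, ← pow_add]
        congr 1
        omega
      have h6 : ∑ r : Fin (kap k d m j), PowerSeries.C (a (LinearEquiv.ofEq _ _ hW z) r) *
          ((∏ i', evK (x i) (th (w i'))) ^ (j - m) *
          evK (x i) (Th (kap k d m j) ((r : ℕ) : ℤ) (∏ i', (-((w i' : Fˣ) : F)) ^ (m - j)))) =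
          (∏ i', evK (x i) (th (w i'))) ^ (j - m) *
          ∑ r : Fin (kap k d m j), PowerSeries.C (a (LinearEquiv.ofEq _ _ hW z) r) *
          evK (x i) (Th (kap k d m j) ((r : ℕ) : ℤ) (∏ i', (-((w i' : Fˣ) : F)) ^ (m - j))) := by
        rw [Finset.mul_sum]
        refine Finset.sum_congr rfl fun r _ => ?_
        ring
      rw [h6, h3, ← mul_assoc, h5, mul_assoc]
  · have hν : nu k d m j = 1 := if_pos heq
    have hmj : m < j := by
      by_contra hc
      have := Nat.mul_le_mul_left k (not_lt.1 hc)
      omega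
    have hz0 : ∀ z : WK (fun i => ptk k (w i)) m d k j, (z : MvPolynomial (Fin 3) (KK F)) =
        MvPolynomial.C (MvPolynomial.coeff 0 (z : MvPolynomial (Fin 3) (KK F))) := by
      intro z
      have h2 := (wk_eq k w m d j hj).le z.2
      have h3 : (z : MvPolynomial (Fin 3) (KK F)) ∈
          MvPolynomial.homogeneousSubmodule (Fin 3) (KK F) (d - k * j) := h2.1
      rw [MvPolynomial.mem_homogeneousSubmodule, heq, Nat.sub_self] at h3
      exact hom0 h3
    rw [hν]
    refine ⟨{ toFun := fun z _ => MvPolynomial.coeff 0 (z : MvPolynomial (Fin 3) (KK F))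
              map_add' := fun z z' => by
                funext _
                simp only [Submodule.coe_add, MvPolynomial.coeff_add, Pi.add_apply]
              map_smul' := fun c z => by
                funext _
                simp only [Submodule.coe_smul, MvPolynomial.coeff_smul, Pi.smul_apply,
                  RingHom.id_apply] }, ?_, ?_⟩
    · intro z hz
      have h2 : MvPolynomial.coeff 0 (z : MvPolynomial (Fin 3) (KK F)) = 0 := congrFun hz 0
      rw [hz0 z, h2, map_zero]
      exact dvd_zero _
    · intro z i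
      have h4 : ∀ r : ℕ, SER k d m w (x i) j r =
          (∏ i', evK (x i) (th (w i'))) ^ (j - m) := by
        intro r
        unfold SER
        rw [if_pos heq, mul_one]
      show (∏ i', evK (x i) (th (w i'))) ^ j *
          MvPolynomial.aeval (phk k (x i)) (z : MvPolynomial (Fin 3) (KK F)) =
        (∏ i', evK (x i) (th (w i'))) ^ m *
          ∑ r : Fin 1, PowerSeries.C (MvPolynomial.coeff 0 (z : MvPolynomial (Fin 3) (KK F))) *
            SER k d m w (x i) j (r : ℕ)
      simp only [h4]
      rw [Fin.sum_univ_one]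
      have h7 : MvPolynomial.aeval (phk k (x i)) (z : MvPolynomial (Fin 3) (KK F)) =
          PowerSeries.C (MvPolynomial.coeff 0 (z : MvPolynomial (Fin 3) (KK F))) := by
        conv_lhs => rw [hz0 z]
        rw [MvPolynomial.aeval_C]
        rfl
      rw [h7]
      have h8 : (∏ i', evK (x i) (th (w i'))) ^ j =
          (∏ i', evK (x i) (th (w i'))) ^ m * (∏ i', evK (x i) (th (w i'))) ^ (j - m) := by
        rw [← pow_add]
        congr 1
        omega
      rw [h8]
      ring

end

end Pool.Agent.Helper78.Nag.LHYK
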